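import Pool.Agent.Helper78.ME.Goals

/-!
# The number of the active head
-/

namespace Pool.Agent.Helper35.ME

open Pool.Agent.Helper65.LinSpace Pool.Agent.Helper78.Mpc Pool.Agent.Helper28.Ram Finset
open Pool.Agent.Helper78.ME

theorem count_take (l : List Bool) (n : ℕ) :
    (l.take n).count true = ∑ i ∈ range n, if l[i]? = some true then 1 else 0 := by
  induction n with
  | zero => simp
  | succ n ih =>
    rw [sum_range_succ, ← ih, List.take_add_one, List.count_append]
    congr 1
    rcases h : l[n]? with _ | b
    · simp
    · cases b <;> simp

theorem eq01_letN (q : List Bool) (n : ℕ) :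
    eq01 (letN (num q) n) 2 = if q[n]? = some true then 1 else 0 := by
  rw [letN_num, eq01]
  rcases h : q[n]? with _ | b
  · simp [codeO]
  · cases b <;> simp [codeO]

/-- ACT. -/
theorem ACT : Pool.Agent.Helper78.ME.ACT_stmt := by
  constructor
  · intro D k q
    rw [act, count_take]
    refine sum_congr rfl fun i _ => ?_
    rw [eq01_letN, List.getElem?_drop]
  · intro D k q hk
    have h1 : act D k q ≤ k - 1 := by
      rw [act]
      refine List.count_le_length.trans ?_
      rw [List.length_take]
      exact min_le_left _ _
    omega

end Pool.Agent.Helper35.ME
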