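import Pool.Agent.Helper47.ME.Goals

/-!
# ME, packet FACE: the top and the bottom are not single points
-/

set_option autoImplicit false

open MeasureTheory Set Filter Topology

noncomputable section

namespace Pool.Agent.Helper35.ME

open Pool.Agent.Helper47.ME Pool.Agent.Helper47.AQ

theorem attained {K : Set (Fin 3 → ℝ)} (h : IsBody K) (q : Fin 3 → ℝ) :
    ∃ x ∈ K, ∑ i, q i * x i = hs K q := by
  obtain ⟨x, hx, h1⟩ := h.comp.exists_sSup_image_eq h.nonempty
    (f := fun x : Fin 3 → ℝ => ∑ i, q i * x i) (Continuous.continuousOn (by fun_prop))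
  exact ⟨x, hx, h1.symm⟩

theorem split {K : Set (Fin 3 → ℝ)} (h : IsBody K) (q q' : Fin 3 → ℝ)
    (heq : hs K (q + q') = hs K q + hs K q') :
    ∃ x ∈ K, ∑ i, q i * x i = hs K q ∧ ∑ i, q' i * x i = hs K q' := by
  obtain ⟨x, hx, h1⟩ := attained h (q + q')
  have h2 := h.le_hs q hx
  have h3 := h.le_hs q' hx
  have h4 : ∑ i, (q + q') i * x i = ∑ i, q i * x i + ∑ i, q' i * x i := by
    rw [← Finset.sum_add_distrib]
    exact Finset.sum_congr rfl fun i _ => by simp only [Pi.add_apply]; ring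
  exact ⟨x, hx, by linarith, by linarith⟩

theorem sum_neg {q x : Fin 3 → ℝ} : ∑ i, (-q) i * x i = -∑ i, q i * x i := by
  rw [← Finset.sum_neg_distrib]
  exact Finset.sum_congr rfl fun i _ => by simp only [Pi.neg_apply]; ring

theorem sum_single (c : ℝ) (x : Fin 3 → ℝ) :
    ∑ i, (Pi.single 2 c : Fin 3 → ℝ) i * x i = c * x 2 := by
  rw [Finset.sum_eq_single 2]
  · simp
  · intro b _ hb
    rw [Pi.single_eq_of_ne hb, zero_mul]
  · intro h
    exact absurd (Finset.mem_univ _) h

theorem face : FACEStmt := by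
  intro K hK y hy c hc he h1 h2
  set e : Fin 3 → ℝ := Pi.single 2 c with hedef
  have hne : (Pi.single 2 (-c) : Fin 3 → ℝ) = -e := by
    rw [hedef, Pi.single_neg]
  rw [hne] at h2
  unfold wd at hy he h1 h2
  rw [neg_add] at h1
  rw [neg_add, neg_neg] at h2
  have a1 := hK.hs_add y e
  have a2 := hK.hs_add (-y) (-e)
  have a3 := hK.hs_add y (-e)
  have a4 := hK.hs_add (-y) e
  obtain ⟨x1, m1, b1, c1⟩ := split hK y e (by linarith)
  obtain ⟨x2, m2, b2, c2⟩ := split hK (-y) (-e) (by linarith)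
  obtain ⟨x3, m3, b3, c3⟩ := split hK y (-e) (by linarith)
  obtain ⟨x4, m4, b4, c4⟩ := split hK (-y) e (by linarith)
  rw [sum_neg] at b2 b4 c2 c3
  rw [hedef, sum_single, ← hedef] at c1 c2 c3 c4
  have hw : hs K y + hs K (-y) = 1 := by linarith
  constructor
  · refine ⟨x1, m1, x4, m4, ?_, ?_, fun x hx => ?_⟩
    · rintro rfl
      linarith
    · exact mul_left_cancel₀ hc.ne' (c1.trans c4.symm)
    · have h5 := hK.le_hs e hx
      rw [hedef, sum_single, ← hedef] at h5
      exact le_of_mul_le_mul_left (h5.trans c1.symm.le) hc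
  · refine ⟨x2, m2, x3, m3, ?_, ?_, fun x hx => ?_⟩
    · rintro rfl
      linarith
    · exact mul_left_cancel₀ hc.ne' (by linarith)
    · have h5 := hK.le_hs (-e) hx
      rw [sum_neg, hedef, sum_single, ← hedef] at h5
      exact le_of_mul_le_mul_left (by linarith) hc

end Pool.Agent.Helper35.ME
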