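import Pool.Agent.Helper78.ME.Goals

/-!
# The geometry of the modules
-/

namespace Pool.Agent.Helper35.ME

open Pool.Agent.Helper65.LinSpace Pool.Agent.Helper78.Mpc Pool.Agent.Helper28.Ram Finset
open Pool.Agent.Helper78.ME

theorem geo_arith {p p₀ d : ℕ} (hd : 0 < d) (h1 : p < p₀ + d) (h2 : p₀ < p + d) :
    p + d - p₀ / d * d < 3 * d ∧ p₀ / d * d + (p + d - p₀ / d * d) - d = p := by
  have h3 : p₀ / d * d ≤ p₀ := Nat.div_mul_le_self _ _
  have h4 : p₀ < p₀ / d * d + d := Nat.lt_div_mul_add hd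
  omega

/-- GEO. -/
theorem GEO : Pool.Agent.Helper78.ME.GEO_stmt := by
  intro m hd
  have hcb : ∀ p, ∀ i < m.D, dig (2 ^ m.κ) p i / m.d < 2 ^ m.κ := fun p i _ =>
    lt_of_le_of_lt (Nat.div_le_self _ _) (dig_lt (by positivity) _ _)
  have hix : ∀ x p, ∀ i < m.D, (dig (2 ^ m.κ) p i + m.d - dig (2 ^ m.κ) x i * m.d) % (3 * m.d) <
      3 * m.d := fun x p i _ => Nat.mod_lt _ (by omega)
  constructor
  · intro p
    have h1 : m.cb p < (2 ^ m.κ) ^ m.D := tab_lt (hcb p)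
    rw [← pow_mul] at h1
    exact h1.trans (Nat.pow_lt_pow_right (by norm_num) (by omega))
  · intro p p₀ hp
    refine ⟨tab_lt (hix _ _), ?_⟩
    refine tab_congr fun i hi => ?_
    obtain ⟨h1, h2, h3, h4⟩ := hp i hi
    have e0 : dig (2 ^ m.κ) (tab (2 ^ m.κ) m.D p₀) i = p₀ i := dig_tab (fun i hi => (hp i hi).2.1) hi
    have e1 : dig (2 ^ m.κ) (tab (2 ^ m.κ) m.D p) i = p i := dig_tab (fun i hi => (hp i hi).1) hi
    have e2 : dig (2 ^ m.κ) (m.cb (tab (2 ^ m.κ) m.D p₀)) i = p₀ i / m.d := by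
      rw [Prm.cb, dig_tab (hcb _) hi, e0]
    obtain ⟨g1, g2⟩ := geo_arith hd h3 h4
    have e3 : dig (3 * m.d) (m.ix (m.cb (tab (2 ^ m.κ) m.D p₀)) (tab (2 ^ m.κ) m.D p)) i =
        p i + m.d - p₀ i / m.d * m.d := by
      rw [Prm.ix, dig_tab (hix _ _) hi, e1, e2, Nat.mod_eq_of_lt g1]
    rw [e2, e3, g2, Nat.mod_eq_of_lt h1]

end Pool.Agent.Helper35.ME
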