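import Pool.Agent.Helper78.ME.Goals
import Pool.Agent.Helper11.Ram.MCOR

/-!
# A machine with several heads and its machine on numbers
-/

namespace Pool.Agent.Helper35.ME

open Pool.Agent.Helper65.LinSpace Pool.Agent.Helper78.Mpc Pool.Agent.Helper28.Ram Finset
open Pool.Agent.Helper65.OH (letW mv InBox co)
open Pool.Agent.Helper78.ME

variable {D k : ℕ} {A : Heads D k} {eA eN eW c : ℕ} {w y : List Bool} {m : Prm}

theorem conf_succ (A : Heads D k) (w y : List Bool) (t : ℕ) :
    A.conf w y (t + 1) = A.step w y (A.conf w y t) := rfl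

theorem mv_le (q : List Bool) (k : ℕ) : |mv q k| ≤ 1 := by
  unfold mv
  split_ifs <;> simp

theorem h_le (A : Heads D k) (w y : List Bool) (t : ℕ) (j : ℕ) (i : Fin D) :
    |(A.conf w y t).h j i| ≤ t := by
  induction t generalizing j with
  | zero => simp [Heads.conf]
  | succ t ih =>
    rw [conf_succ]
    set C := A.conf w y t with hC
    show |Function.update C.h (act D k C.q) (fun i => C.h (act D k C.q) i +
      mv (A.next (A.inp w y C.q (C.M (C.h (act D k C.q))))) i) j i| ≤ _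
    by_cases hj : j = act D k C.q
    · rw [hj, Function.update_self]
      refine (abs_add_le _ _).trans ?_
      have h1 := mv_le (A.next (A.inp w y C.q (C.M (C.h (act D k C.q))))) i
      have h2 := ih (act D k C.q)
      push_cast
      linarith
    · rw [Function.update_of_ne hj]
      have h2 := ih j
      push_cast
      linarith

theorem inBox (A : Heads D k) (w y : List Bool) {κ t : ℕ} (hκ : 0 < κ) (ht : t < 2 ^ (κ - 1))
    (j : ℕ) : InBox κ ((A.conf w y t).h j) := by
  intro i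
  have h1 := abs_le.1 (h_le A w y t j i)
  have h2 : (t : ℤ) < 2 ^ (κ - 1) := by exact_mod_cast ht
  have h3 : (2 : ℤ) ^ κ = 2 * 2 ^ (κ - 1) := by
    rw [← pow_succ']
    congr 1
    omega
  constructor
  · linarith [h1.1]
  · rw [h3]
    linarith [h1.2]

/-- The functions of `A` are computed correctly. -/
theorem fns (hP : Par A eA eN eW c w y m)
    {cA cN cW : ℕ} (hc : c = cA + cN + cW)
    (hA : ∀ (w : List Bool) (S Λ β B : ℕ), cA * (S + w.length + 2) ≤ Λ →
      cA + Λ + S + w.length + 1 ≤ β → 2 ^ (S + 1) ≤ B →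
      fnN eA S Λ β B (num w) = if (A.addr w).length ≤ S then num (A.addr w) else 0)
    (hN : ∀ (w : List Bool) (S Λ β B : ℕ), cN * (S + w.length + 2) ≤ Λ →
      cN + Λ + S + w.length + 1 ≤ β → 2 ^ (S + 1) ≤ B →
      fnN eN S Λ β B (num w) = if (A.next w).length ≤ S then num (A.next w) else 0)
    (hW : ∀ (w : List Bool) (S Λ β B : ℕ), cW * (S + w.length + 2) ≤ Λ →
      cW + Λ + S + w.length + 1 ≤ β → 2 ^ (S + 1) ≤ B →
      fnN eW S Λ β B (num w) = if (A.write w).length ≤ S then num (A.write w) else 0) :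
    Fns A m := by
  have key : ∀ (f : List Bool → List Bool) (e c' : ℕ), c' ≤ c →
      (∀ (w : List Bool) (S Λ β B : ℕ), c' * (S + w.length + 2) ≤ Λ →
        c' + Λ + S + w.length + 1 ≤ β → 2 ^ (S + 1) ≤ B →
        fnN e S Λ β B (num w) = if (f w).length ≤ S then num (f w) else 0) →
      Good f e m.S m.Λ m.β m.B (3 * m.S + 5) := by
    intro f e c' hc' hf u hu
    refine hf u _ _ _ _ ?_ ?_ hP.h_B
    · refine le_trans ?_ hP.h_Λ
      exact Nat.mul_le_mul hc' (by omega)
    · have := hP.h_β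
      omega
  exact ⟨by rw [hP.h_eA]; exact key _ _ _ (by omega) hA,
    by rw [hP.h_eN]; exact key _ _ _ (by omega) hN,
    by rw [hP.h_eW]; exact key _ _ _ (by omega) hW⟩

theorem wconf_succ (m : Prm) (T : ℕ) : m.wk.conf (T + 1) =
    (m.nx (m.wk.conf T).1 ((m.wk.conf T).2 (m.pos (m.wk.conf T).1 (m.aj (m.wk.conf T).1))),
      Function.update (m.wk.conf T).2 (m.pos (m.wk.conf T).1 (m.aj (m.wk.conf T).1))
        (m.wl (m.nx (m.wk.conf T).1
          ((m.wk.conf T).2 (m.pos (m.wk.conf T).1 (m.aj (m.wk.conf T).1)))))) := rfl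

/-- All contents are small. -/
theorem mem_lt (m : Prm) (T p : ℕ) : (m.wk.conf T).2 p < 2 ^ (m.S + 1) := by
  induction T generalizing p with
  | zero => exact Nat.one_lt_two_pow (by omega)
  | succ T ih =>
    rw [wconf_succ]
    show Function.update (m.wk.conf T).2 _ (m.wl _) p < _
    by_cases hp : p = m.pos (m.wk.conf T).1 (m.aj (m.wk.conf T).1)
    · rw [hp, Function.update_self]
      exact Nat.mod_lt _ (by positivity)
    · rw [Function.update_of_ne hp]
      exact ih p

/-- A failing state remains a failing state. -/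
theorem fail_step (hM : MOV_stmt) (hk : 0 < m.k) {v c : ℕ} (hc : c < 2 ^ (m.S + 1))
    (h0 : m.wq v = 0) : m.wq (m.nx v c) = 0 := by
  have had : m.adN v = 0 := by
    rw [Prm.adN, h0, fnN_zero, Helper11.Ram.capN_zero]
  have hok : m.ok v c = 0 := by rw [Prm.ok, had, zero_mul]
  obtain ⟨-, -, -, h1, -⟩ := hM m v c hk hc
  rw [h1, h0, hok, Helper11.Ram.accN_zero]
  rfl

/-- An accepting configuration is kept. -/
theorem acc_step (hM : MOV_stmt) (hk : 0 < m.k) (hD : m.D = D) {C : Conf D} {v : ℕ} {mem : ℕ → ℕ}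
    (hmem : ∀ p, mem p < 2 ^ (m.S + 1))
    (h : GoodC m C v mem) (hacc : C.q.head? = some true) :
    GoodC m C (m.nx v (mem (m.pos v (m.aj v)))) (Function.update mem (m.pos v (m.aj v))
      (m.wl (m.nx v (mem (m.pos v (m.aj v)))))) := by
  obtain ⟨-, -, -, h1, h2, h3⟩ := hM m v (mem (m.pos v (m.aj v))) hk (hmem _)
  have ha : accN (m.wq v) = 1 := by
    rw [h.wq]
    exact (accN_num _).2 hacc
  rw [ha, ifz_ne one_ne_zero] at h1 h2
  refine ⟨by rw [h1, h.wq], h.len, ?_, ?_⟩
  · intro j hj i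
    rw [h3 j hj i (by rw [hD]; exact i.2), ha, ifz_ne one_ne_zero]
    exact h.cq j hj i
  · intro z hz
    rw [h2, Function.update_eq_self]
    exact h.mem z hz

theorem start (hDEC : DEC_stmt) (hP : Par A eA eN eW c w y m) :
    (m.wq (m.wk.conf 0).1 = 0 ∨ A.start.length ≤ m.S) ∧
      (A.start.length ≤ m.S → GoodC m (A.conf w y 0) (m.wk.conf 0).1 (m.wk.conf 0).2) := by
  have hκ : 2 ^ (m.κ - 1) < 2 ^ m.κ :=
    Nat.pow_lt_pow_right (by norm_num) (by have := hP.pos_κ; omega)
  obtain ⟨-, h2, -, h3⟩ := hDEC.mk_lt m (capN m.S m.st) 0 (fun _ _ => 2 ^ (m.κ - 1)) (capN_lt _ _)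
    (by positivity) fun _ _ _ _ => hκ
  have hq : (m.wk.conf 0).1 = m.mk' (capN m.S m.st) 0 (fun _ _ => 2 ^ (m.κ - 1)) := rfl
  constructor
  · by_cases hs : A.start.length ≤ m.S
    · exact Or.inr hs
    · left
      rw [hq, h2, hP.h_st]
      by_contra h4
      exact hs (Helper11.Ram.capN_num_le h4)
  · intro hlen
    refine ⟨?_, hlen, ?_, ?_⟩
    · rw [hq, h2, hP.h_st, capN_num hlen]
      rfl
    · intro j hj i
      rw [hq, h3 j hj.le i (by rw [hP.h_D]; exact i.2)]
      show ((2 ^ (m.κ - 1) : ℕ) : ℤ) = 0 + 2 ^ (m.κ - 1)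
      push_cast
      ring
    · intro z _
      exact ⟨Nat.zero_le _, rfl⟩

/-- The first invariant. -/
theorem inv1 (hDEC : DEC_stmt) (hM : MOV_stmt) (hS : STEP_stmt) (hP : Par A eA eN eW c w y m)
    (hF : Fns A m) (T : ℕ) : m.wq (m.wk.conf T).1 = 0 ∨
      ∃ τ, GoodC m (A.conf w y τ) (m.wk.conf T).1 (m.wk.conf T).2 := by
  have hk : 0 < m.k := by rw [hP.h_k]; exact hP.pos_k
  induction T with
  | zero =>
    obtain ⟨h1, h2⟩ := start hDEC hP
    rcases h1 with h | h
    · exact Or.inl h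
    · exact Or.inr ⟨0, h2 h⟩
  | succ T ih =>
    rcases ih with h0 | ⟨τ, h⟩
    · left
      rw [wconf_succ]
      exact fail_step hM hk (mem_lt m T _) h0
    · by_cases hacc : (A.conf w y τ).q.head? = some true
      · right
        refine ⟨τ, ?_⟩
        rw [wconf_succ]
        exact acc_step hM hk hP.h_D (mem_lt m T) h hacc
      · rcases (hS A eA eN eW c w y m hP hF _ _ _ h hacc).1 with ⟨-, h1⟩ | ⟨-, h1⟩
        · left
          rw [wconf_succ]
          exact h1
        · right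
          refine ⟨τ + 1, ?_⟩
          rw [wconf_succ, conf_succ]
          exact h1

/-- The second invariant. -/
theorem inv2 (hDEC : DEC_stmt) (hM : MOV_stmt) (hS : STEP_stmt) (hP : Par A eA eN eW c w y m)
    (hF : Fns A m) {r : ℕ} (hfit : A.Fits w y r m.S) (hacc : A.AcceptsAt w y r)
    (hr : r < 2 ^ (m.κ - 1)) (T : ℕ) :
    ∃ τ ≤ r, GoodC m (A.conf w y τ) (m.wk.conf T).1 (m.wk.conf T).2 ∧
      (τ = T ∨ (A.conf w y τ).q.head? = some true) := by
  have hk : 0 < m.k := by rw [hP.h_k]; exact hP.pos_k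
  induction T with
  | zero =>
    exact ⟨0, Nat.zero_le _, (start hDEC hP).2 (hfit 0 (Nat.zero_le _)).1, Or.inl rfl⟩
  | succ T ih =>
    obtain ⟨τ, hτ, h, hT⟩ := ih
    by_cases ha : (A.conf w y τ).q.head? = some true
    · refine ⟨τ, hτ, ?_, Or.inr ha⟩
      rw [wconf_succ]
      exact acc_step hM hk hP.h_D (mem_lt m T) h ha
    · rcases hT with rfl | hT
      · have hlt : τ < r := by
          rcases Nat.lt_or_ge τ r with h1 | h1
          · exact h1
          · have : τ = r := le_antisymm hτ h1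
            subst this
            exact absurd hacc ha
        obtain ⟨h1, h2⟩ := hS A eA eN eW c w y m hP hF _ _ _ h ha
        obtain ⟨-, f2, -⟩ := hfit τ hlt.le
        obtain ⟨f4, -, f6⟩ := hfit (τ + 1) hlt
        have hok := h2 f2 f4 f6 fun j _ => inBox A w y (t := τ + 1) hP.pos_κ (by omega) j
        rcases h1 with ⟨k1, -⟩ | ⟨-, k2⟩
        · exact absurd k1 hok
        · refine ⟨τ + 1, hlt, ?_, Or.inl rfl⟩
          rw [wconf_succ, conf_succ]
          exact k2
      · exact absurd hT ha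

/-- MCOR. -/
theorem MCOR (hDEC : DEC_stmt) (hM : MOV_stmt) (hS : STEP_stmt) :
    Pool.Agent.Helper78.ME.MCOR_stmt := by
  intro D k A
  obtain ⟨eA, cA, hA⟩ := fnN_spec A.addr_lin
  obtain ⟨eN, cN, hN⟩ := fnN_spec A.next_lin
  obtain ⟨eW, cW, hW⟩ := fnN_spec A.write_lin
  refine ⟨eA, eN, eW, cA + cN + cW, fun w y m hP => ?_⟩
  have hF : Fns A m := fns hP rfl hA hN hW
  constructor
  · intro T hT
    rcases inv1 hDEC hM hS hP hF T with h | ⟨τ, h⟩
    · rw [h, Helper11.Ram.accN_zero] at hT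
      omega
    · rw [h.wq] at hT
      exact ⟨τ, (accN_num _).1 hT⟩
  · intro r T hfit hacc hr hT
    obtain ⟨τ, hτ, h, h1⟩ := inv2 hDEC hM hS hP hF hfit hacc hr T
    rw [h.wq]
    refine (accN_num _).2 ?_
    rcases h1 with h1 | h1
    · have : τ = r := by omega
      rw [this]
      exact hacc
    · exact h1

end Pool.Agent.Helper35.ME
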