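import Pool.Agent.Helper78.ME.Goals

/-!
# The parameters are computed in linear space
-/

namespace Pool.Agent.Helper35.ME

open Pool.Agent.Helper65.LinSpace Pool.Agent.Helper78.Mpc Pool.Agent.Helper28.Ram Finset
open Pool.Agent.Helper78.ME

theorem sq_le_two_pow (k : ℕ) : k * k ≤ 2 * 2 ^ k := by
  induction k with
  | zero => norm_num
  | succ k ih =>
    have h : k < 2 ^ k := Nat.lt_two_pow_self
    rw [pow_succ]
    nlinarith

theorem ll_sq_le (n : ℕ) : ll n * ll n ≤ 4 * (n + 1) := by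
  refine (sq_le_two_pow _).trans ?_
  rcases Nat.eq_zero_or_pos n with h | h
  · subst h
    simp [ll]
  · have h1 := Nat.pow_log_le_self 2 (show n ≠ 0 by omega)
    rw [ll, pow_succ]
    omega

theorem ll_le (n : ℕ) : ll n ≤ n + 1 := by
  have := Nat.log_le_self 2 n
  unfold ll
  omega

theorem base_le (n : ℕ) : 3 * (n + 9) ≤ 2 ^ (ll n + 6) := by
  have h1 : n < 2 ^ (Nat.log 2 n + 1) := Nat.lt_pow_succ_log_self (by norm_num) n
  have h2 : 2 ^ (ll n + 6) = 64 * 2 ^ (Nat.log 2 n + 1) := by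
    rw [ll, pow_add]
    ring
  rw [h2]
  omega

theorem pow_bd (x f g : ℕ) (hf : f ≤ 3 * (Nat.log 2 x + 9)) (hg : g ≤ ll (Nat.log 2 x)) :
    f ^ g ≤ (x + 2) ^ 100 := by
  set n := Nat.log 2 x with hn
  have h1 : f ^ g ≤ 2 ^ (10 * (n + 1)) := by
    calc f ^ g ≤ (2 ^ (ll n + 6)) ^ g := Nat.pow_le_pow_left (hf.trans (base_le n)) _
      _ ≤ (2 ^ (ll n + 6)) ^ ll n := Nat.pow_le_pow_right (by positivity) hg
      _ = 2 ^ ((ll n + 6) * ll n) := (pow_mul _ _ _).symm
      _ ≤ _ := by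
        refine Nat.pow_le_pow_right (by norm_num) ?_
        have h2 := ll_sq_le n
        have h3 := ll_le n
        nlinarith
  refine (h1.trans (two_pow_log_le x 10)).trans ?_
  exact Nat.pow_le_pow_right (by omega) (by norm_num)

section

variable {α : Type} [Ctx α]

theorem LSpow {x f g : α → ℕ} (hx : LS x) (hf : LS f) (hg : LS g)
    (h1 : ∀ z, f z ≤ 3 * (Nat.log 2 (x z) + 9)) (h2 : ∀ z, g z ≤ ll (Nat.log 2 (x z))) :
    LS (fun z => f z ^ g z) :=
  LS.pow_of_le hf hg (C := fun z => (x z + 2) ^ 100) (by fun_prop) fun z =>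
    pow_bd _ _ _ (h1 z) (h2 z)

theorem LSmR {n : α → ℕ} (hn : LS n) : LS (fun z => Pool.Agent.Helper78.Ep.mR (n z)) := by
  unfold Pool.Agent.Helper78.Ep.mR
  fun_prop

theorem LSkap {n : α → ℕ} (hn : LS n) : LS (fun z => kap (n z)) := by
  unfold kap
  fun_prop

theorem LSfits {x S D k d : α → ℕ} (hx : LS x) (hS : LS S) (hD : LS D) (hk : LS k) (hd : LS d)
    (h1 : ∀ z, d z ≤ Nat.log 2 (x z) + 9) (h2 : ∀ z, D z ≤ ll (Nat.log 2 (x z))) :
    LS (fun z => fits (Nat.log 2 (x z)) (S z) (D z) (k z) (d z)) := by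
  have e1 : LS (fun z => d z ^ (D z - 1)) := LSpow hx hd (by fun_prop)
    (fun z => by have := h1 z; omega) (fun z => by have := h2 z; omega)
  have e2 : LS (fun z => (3 * d z) ^ D z) := LSpow hx (by fun_prop) hD
    (fun z => by have := h1 z; omega) h2
  have e3 : LS (fun z => Pool.Agent.Helper78.Ep.mR (Nat.log 2 (x z))) := LSmR (by fun_prop)
  have e4 : LS (fun z => kap (Nat.log 2 (x z))) := LSkap (by fun_prop)
  unfold fits cost
  fun_prop

theorem le01_le (a b : ℕ) : le01 a b ≤ 1 := by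
  unfold le01
  split_ifs <;> omega

theorem fits_le (n S D k d : ℕ) : fits n S D k d ≤ 1 := by
  unfold fits
  calc _ ≤ 1 * (1 * 1) := Nat.mul_le_mul (le01_le _ _) (Nat.mul_le_mul (le01_le _ _) (le01_le _ _))
    _ = 1 := by norm_num

theorem dd_le (n S D k : ℕ) : dd n S D k ≤ n + 9 := by
  unfold dd
  refine (sum_le_sum fun j _ => fits_le n S D k (j + 1)).trans ?_
  simp

theorem LSdd {x S D k : α → ℕ} (hx : LS x) (hS : LS S) (hD : LS D) (hk : LS k)
    (h2 : ∀ z, D z ≤ ll (Nat.log 2 (x z))) :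
    LS (fun z => dd (Nat.log 2 (x z)) (S z) (D z) (k z)) := by
  have h : LS (fun z : α => ∑ j ∈ range (Nat.log 2 (x z) + 9),
      fits (Nat.log 2 (x z)) (S z) (D z) (k z) (min j (Nat.log 2 (x z) + 8) + 1)) := by
    refine LS.sum_le (f := fun z j => fits (Nat.log 2 (x z)) (S z) (D z) (k z)
      (min j (Nat.log 2 (x z) + 8) + 1)) (N := fun z => Nat.log 2 (x z) + 9) (B := fun _ => 1)
      ?_ (by fun_prop) (by fun_prop) fun z i _ => fits_le _ _ _ _ _
    exact LSfits (x := fun p : α × ℕ => x p.1) (S := fun p : α × ℕ => S p.1)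
      (D := fun p : α × ℕ => D p.1) (k := fun p : α × ℕ => k p.1)
      (d := fun p : α × ℕ => min p.2 (Nat.log 2 (x p.1) + 8) + 1)
      (by fun_prop) (by fun_prop) (by fun_prop) (by fun_prop)
      (LS.succ (LS.min (by fun_prop) (by fun_prop))) (fun z => by omega) (fun z => h2 z.1)
  refine LS.congr h fun z => ?_
  unfold dd
  refine sum_congr rfl fun j hj => ?_
  have := mem_range.1 hj
  congr 2
  omega

end

theorem pd_le (n S D k : ℕ) : pd n S D k ≤ n + 9 := by
  unfold pd ifz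
  split_ifs
  · omega
  · exact dd_le _ _ _ _

theorem pD_le (n S D k : ℕ) : pD n S D k ≤ ll n := by
  unfold pD ifz
  split_ifs
  · exact Nat.zero_le _
  · exact min_le_right _ _

/-- MLS1. -/
theorem MLS1 : Pool.Agent.Helper78.ME.MLS1_stmt := by
  intro α _ x S D k hx hS hD hk
  have hn : LS (fun z => Nat.log 2 (x z)) := by fun_prop
  have h1 : LS (fun z => min (S z) (Nat.log 2 (x z))) := LS.min hS hn
  have h2 : LS (fun z => min (D z) (ll (Nat.log 2 (x z)))) := LS.min hD (by fun_prop)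
  have h3 : LS (fun z => min (k z - 1) (Nat.log 2 (x z)) + 1) :=
    LS.succ (LS.min (by fun_prop) hn)
  have h4 : LS (fun z => min (k z - 1) (Nat.log 2 (x z)) + 1) := h3
  have hdd : LS (fun z => dd (Nat.log 2 (x z)) (min (S z) (Nat.log 2 (x z)))
      (min (D z) (ll (Nat.log 2 (x z)))) (min (k z - 1) (Nat.log 2 (x z)) + 1)) :=
    LSdd hx h1 h2 h3 fun z => min_le_right _ _
  have hpS : LS (fun z => pS (Nat.log 2 (x z)) (S z) (D z) (k z)) :=
    LS.ifz hdd (LS.const 0) (LS.min hS hn)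
  have hpD : LS (fun z => pD (Nat.log 2 (x z)) (S z) (D z) (k z)) :=
    LS.ifz hdd (LS.const 0) h2
  have hpk : LS (fun z => pk (Nat.log 2 (x z)) (S z) (D z) (k z)) :=
    LS.ifz hdd (LS.const 1) h3
  have hpd : LS (fun z => pd (Nat.log 2 (x z)) (S z) (D z) (k z)) :=
    LS.ifz hdd (LS.const 1) hdd
  have hp1 : LS (fun z => pd (Nat.log 2 (x z)) (S z) (D z) (k z) ^
      (pD (Nat.log 2 (x z)) (S z) (D z) (k z) - 1)) := LSpow hx hpd (by fun_prop)
    (fun z => by have := pd_le (Nat.log 2 (x z)) (S z) (D z) (k z); omega)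
    (fun z => by have := pD_le (Nat.log 2 (x z)) (S z) (D z) (k z); omega)
  have hp2 : LS (fun z => (3 * pd (Nat.log 2 (x z)) (S z) (D z) (k z)) ^
      pD (Nat.log 2 (x z)) (S z) (D z) (k z)) := LSpow hx (by fun_prop) hpD
    (fun z => by have := pd_le (Nat.log 2 (x z)) (S z) (D z) (k z); omega)
    (fun z => pD_le _ _ _ _)
  refine ⟨hdd, hpS, hpD, hpk, hpd, hp1, hp2, ?_⟩
  have e3 : LS (fun z => Pool.Agent.Helper78.Ep.mR (Nat.log 2 (x z))) := LSmR hn
  have e4 : LS (fun z => kap (Nat.log 2 (x z))) := LSkap hn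
  unfold blocks
  refine LS.min (by fun_prop) (LS.sub (LS.min (by fun_prop) (by fun_prop)) (LS.const 1))

end Pool.Agent.Helper35.ME
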