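import Pool.Agent.Helper78.ME.Goals

/-!
# One step on numbers
-/

namespace Pool.Agent.Helper35.ME

open Pool.Agent.Helper65.LinSpace Pool.Agent.Helper78.Mpc Pool.Agent.Helper28.Ram Finset
open Pool.Agent.Helper78.ME

variable {m : Prm}

/-- A code whose last coordinates are those of the active head. -/
theorem mov_core (hDEC : DEC_stmt) {v u l : ℕ} (hu : u < 2 ^ (m.S + 1)) (hl : l < 2 ^ (m.S + 1))
    (cc : ℕ → ℕ → ℕ) (hcc : ∀ j < m.k, ∀ i < m.D, cc j i < 2 ^ m.κ) (e : ℕ)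
    (he : e = m.mk' u l fun j i => ifz (eq01 j m.k) (cc j i) (m.cq v (m.aj v) i)) :
    e < 2 ^ m.σ ∧ m.pos e m.k = m.pos v (m.aj v) ∧ m.wq e = u ∧ m.wl e = l ∧
      ∀ j < m.k, ∀ i < m.D, m.cq e j i = cc j i := by
  obtain ⟨h1, h2, h3, h4⟩ := hDEC.mk_lt m u l
    (fun j i => ifz (eq01 j m.k) (cc j i) (m.cq v (m.aj v) i)) hu hl (by
      intro j hj i hi
      show ifz (eq01 j m.k) (cc j i) (m.cq v (m.aj v) i) < 2 ^ m.κ
      rw [ifz_eq01]
      split_ifs with h
      · exact hDEC.cq_lt m v _ i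
      · exact hcc j (by omega) i hi)
  rw [← he] at h1 h2 h3 h4
  refine ⟨h1, ?_, h2, h3, ?_⟩
  · refine tab_congr fun i hi => ?_
    rw [h4 m.k le_rfl i hi, ifz_eq01, if_pos rfl]
  · intro j hj i hi
    rw [h4 j hj.le i hi, ifz_eq01, if_neg hj.ne]

theorem eq01_le (a b : ℕ) : eq01 a b ≤ 1 := by
  unfold eq01
  split_ifs <;> omega

/-- If a step is possible, the active head remains in the box. -/
theorem viol_zero {v u : ℕ} (h : m.viol v u = 0) : ∀ i < m.D,
    Prm.mi u i ≤ m.cq v (m.aj v) i + Prm.pl u i ∧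
      m.cq v (m.aj v) i + Prm.pl u i - Prm.mi u i < 2 ^ m.κ := by
  intro i hi
  have h1 := (sum_eq_zero_iff.1 h) i (mem_range.2 hi)
  unfold le01 lt01 at h1
  by_cases h2 : Prm.mi u i ≤ m.cq v (m.aj v) i + Prm.pl u i
  · by_cases h3 : m.cq v (m.aj v) i + Prm.pl u i - Prm.mi u i < 2 ^ m.κ
    · exact ⟨h2, h3⟩
    · rw [if_neg h3] at h1
      simp at h1
  · rw [if_neg h2] at h1
    simp at h1

theorem ok_viol {v c : ℕ} (h : m.ok v c ≠ 0) : m.viol v (m.nu v c) = 0 := by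
  by_contra h1
  apply h
  rw [Prm.ok, eq01_ne h1]
  simp

/-- MOV. -/
theorem MOV (hDEC : DEC_stmt) : Pool.Agent.Helper78.ME.MOV_stmt := by
  intro m v c _ hc
  have hwq : m.wq v < 2 ^ (m.S + 1) := Nat.mod_lt _ (by positivity)
  by_cases ha : accN (m.wq v) = 0
  · by_cases hok : m.ok v c = 0
    · have e1 : m.nx v c = m.mk' 0 c fun j i =>
          ifz (eq01 j m.k) (m.cq v j i) (m.cq v (m.aj v) i) := by
        rw [Prm.nx, ha, ifz_zero, hok, ifz_zero]
        rfl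
      obtain ⟨h1, h2, h3, h4, h5⟩ := mov_core hDEC (by positivity) hc (m.cq v)
        (fun j _ i _ => hDEC.cq_lt m v j i) _ e1
      refine ⟨h1, h2, ?_, ?_, ?_, ?_⟩
      · intro j hj i hi
        rw [h5 j hj i hi]
        omega
      · rw [h3, ha, ifz_zero, hok, ifz_zero]
      · rw [h4, ha, ifz_zero, hok, ifz_zero]
      · intro j hj i hi
        rw [h5 j hj i hi, ha, ifz_zero, hok, ifz_zero]
    · have hv := viol_zero (ok_viol hok)
      have e1 : m.nx v c = m.mk' (m.nu v c) (m.nw v c) fun j i =>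
          ifz (eq01 j m.k) (ifz (eq01 j (m.aj v)) (m.cq v j i)
            (m.cq v j i + Prm.pl (m.nu v c) i - Prm.mi (m.nu v c) i)) (m.cq v (m.aj v) i) := by
        rw [Prm.nx, ha, ifz_zero, ifz_ne hok]
        rfl
      obtain ⟨h1, h2, h3, h4, h5⟩ := mov_core hDEC (capN_lt _ _) (capN_lt _ _)
        (fun j i => ifz (eq01 j (m.aj v)) (m.cq v j i)
            (m.cq v j i + Prm.pl (m.nu v c) i - Prm.mi (m.nu v c) i))
        (by
          intro j _ i hi
          show ifz (eq01 j (m.aj v)) (m.cq v j i)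
            (m.cq v j i + Prm.pl (m.nu v c) i - Prm.mi (m.nu v c) i) < 2 ^ m.κ
          rw [ifz_eq01]
          split_ifs with h
          · rw [h]
            exact (hv i hi).2
          · exact hDEC.cq_lt m v j i) _ e1
      refine ⟨h1, h2, ?_, ?_, ?_, ?_⟩
      · intro j hj i hi
        rw [h5 j hj i hi]
        show ifz (eq01 j (m.aj v)) (m.cq v j i)
            (m.cq v j i + Prm.pl (m.nu v c) i - Prm.mi (m.nu v c) i) ≤ _ ∧
          _ ≤ ifz (eq01 j (m.aj v)) (m.cq v j i)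
            (m.cq v j i + Prm.pl (m.nu v c) i - Prm.mi (m.nu v c) i) + 1
        rw [ifz_eq01]
        have h6 : Prm.pl (m.nu v c) i ≤ 1 := eq01_le _ _
        have h7 : Prm.mi (m.nu v c) i ≤ 1 := eq01_le _ _
        split_ifs <;> omega
      · rw [h3, ha, ifz_zero, ifz_ne hok, Prm.nu]
      · rw [h4, ha, ifz_zero, ifz_ne hok, Prm.nw]
      · intro j hj i hi
        rw [h5 j hj i hi, ha, ifz_zero, ifz_ne hok]
  · have e1 : m.nx v c = m.mk' (m.wq v) c fun j i =>
        ifz (eq01 j m.k) (m.cq v j i) (m.cq v (m.aj v) i) := by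
      rw [Prm.nx, ifz_ne ha]
      rfl
    obtain ⟨h1, h2, h3, h4, h5⟩ := mov_core hDEC hwq hc (m.cq v)
      (fun j _ i _ => hDEC.cq_lt m v j i) _ e1
    refine ⟨h1, h2, ?_, ?_, ?_, ?_⟩
    · intro j hj i hi
      rw [h5 j hj i hi]
      omega
    · rw [h3, ifz_ne ha]
    · rw [h4, ifz_ne ha]
    · intro j hj i hi
      rw [h5 j hj i hi, ifz_ne ha]

end Pool.Agent.Helper35.ME
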